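import Mathlib

set_option autoImplicit false

/-!
# MP_9b093e_co: the ratio of the upper broadcast number to the upper domination number is unbounded

Take `K_n □ P_{n+1}`, with levels `0, …, n`, and for each level `s ≥ 1` add a vertex `z_s` adjacent
to all vertices of level `s`.  Broadcasting with strength `n` from all `n` vertices of level `n` is
a minimal dominating broadcast of cost `n²`.  The closed neighbourhood of `z_s` is a clique, and
this forces every minimal dominating set to have at most one vertex on each level `s ≥ 2`.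
-/

open SimpleGraph

namespace Pool.Agent.Results.MP_9b093e_co.UnboundedRatio

/-- The eccentricity `e(v) = max_u d(u, v)`. -/
noncomputable def ecc {V : Type} [Fintype V] (G : SimpleGraph V) (v : V) : ℕ :=
  Finset.univ.sup fun u => G.dist u v

/-- `f` is a dominating broadcast: `f(v) ≤ e(v)` for all `v` (so that also `f(v) ≤ diam G`) and
every vertex `u` satisfies `d(u, v) ≤ f(v)` for some `v` with `f(v) ≥ 1`. -/
structure IsDominatingBroadcast {V : Type} [Fintype V] (G : SimpleGraph V) (f : V → ℕ) :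
    Prop where
  le_ecc : ∀ v, f v ≤ ecc G v
  dominates : ∀ u, ∃ v, 1 ≤ f v ∧ G.dist u v ≤ f v

/-- The upper broadcast domination number `Γ_b(G)`: the largest cost of a minimal dominating
broadcast (minimal for the pointwise order). -/
noncomputable def upperBroadcastNumber {V : Type} [Fintype V] (G : SimpleGraph V) : ℕ :=
  sSup {c | ∃ f : V → ℕ, Minimal (IsDominatingBroadcast G) f ∧ ∑ v, f v = c}

/-- `D` is a dominating set. -/
def IsDominatingSet {V : Type} (G : SimpleGraph V) (D : Finset V) : Prop :=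
  ∀ u, u ∈ D ∨ ∃ v ∈ D, G.Adj v u

/-- The upper domination number `Γ(G)`: the largest size of a minimal dominating set (minimal for
inclusion). -/
noncomputable def upperDominationNumber {V : Type} (G : SimpleGraph V) : ℕ :=
  sSup {c | ∃ D : Finset V, Minimal (IsDominatingSet G) D ∧ D.card = c}

/-! ### The graph -/

/-- the vertices: `inl (i, s)` is column `i`, level `s`, and `inr t` is `z_{t+1}` -/
abbrev W (n : ℕ) : Type := (Fin n × Fin (n + 1)) ⊕ Fin n

/-- the level of a vertex -/
def lev {n : ℕ} : W n → ℕ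
  | Sum.inl x => x.2.val
  | Sum.inr t => t.val + 1

/-- being vertically adjacent -/
def Vert {n : ℕ} : W n → W n → Prop
  | Sum.inl x, Sum.inl y => x.1 = y.1 ∧ (x.2.val = y.2.val + 1 ∨ y.2.val = x.2.val + 1)
  | _, _ => False

/-- The graph: `K_n □ P_{n+1}` together with the vertices `z_s`. -/
def H (n : ℕ) : SimpleGraph (W n) where
  Adj x y := (x ≠ y ∧ lev x = lev y) ∨ Vert x y
  symm := ⟨by
    rintro (⟨i, s⟩ | t) (⟨j, r⟩ | u) (⟨h1, h2⟩ | h)
    · exact Or.inl ⟨h1.symm, h2.symm⟩
    · exact Or.inr ⟨h.1.symm, h.2.symm⟩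
    · exact Or.inl ⟨h1.symm, h2.symm⟩
    · exact h.elim
    · exact Or.inl ⟨h1.symm, h2.symm⟩
    · exact h.elim
    · exact Or.inl ⟨h1.symm, h2.symm⟩
    · exact h.elim⟩
  loopless := ⟨by
    rintro (⟨i, s⟩ | t) (⟨h1, _⟩ | h)
    · exact h1 rfl
    · have := h.2
      omega
    · exact h1 rfl
    · exact h⟩

theorem adj_iff {n : ℕ} (x y : W n) : (H n).Adj x y ↔ (x ≠ y ∧ lev x = lev y) ∨ Vert x y := Iff.rfl

theorem adj_of_lev {n : ℕ} {x y : W n} (h : x ≠ y) (hl : lev x = lev y) : (H n).Adj x y :=
  Or.inl ⟨h, hl⟩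

/-- a neighbour of `z_s` is on level `s` -/
theorem lev_of_adj_inr {n : ℕ} (x : W n) (t : Fin n) (h : (H n).Adj x (Sum.inr t)) :
    lev x = t.val + 1 := by
  rcases (adj_iff _ _).1 h with ⟨_, h2⟩ | h2
  · exact h2
  · rcases x with ⟨i, s⟩ | u
    · exact h2.elim
    · exact h2.elim

theorem reach_down {n : ℕ} (i : Fin n) (s : ℕ) (hs : s < n + 1) :
    (H n).Reachable (Sum.inl (i, ⟨s, hs⟩)) (Sum.inl (i, ⟨0, Nat.succ_pos n⟩)) := by
  induction s with
  | zero => exact Reachable.refl _
  | succ s ih =>
    have h1 : (H n).Adj (Sum.inl (i, ⟨s + 1, hs⟩)) (Sum.inl (i, ⟨s, by omega⟩)) :=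
      Or.inr ⟨rfl, Or.inl rfl⟩
    exact h1.reachable.trans (ih (by omega))

theorem reach_base {n : ℕ} (i₀ : Fin n) (x : W n) :
    (H n).Reachable x (Sum.inl (i₀, ⟨0, Nat.succ_pos n⟩)) := by
  have h0 : ∀ i : Fin n, (H n).Reachable (Sum.inl (i, ⟨0, Nat.succ_pos n⟩))
      (Sum.inl (i₀, ⟨0, Nat.succ_pos n⟩)) := by
    intro i
    by_cases h : i = i₀
    · rw [h]
    · have h1 : (H n).Adj (Sum.inl (i, ⟨0, Nat.succ_pos n⟩)) (Sum.inl (i₀, ⟨0, Nat.succ_pos n⟩)) := by
        refine adj_of_lev ?_ rfl
        intro he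
        apply h
        simpa using he
      exact h1.reachable
  rcases x with ⟨i, s⟩ | t
  · exact (reach_down i s.val s.isLt).trans (h0 i)
  · have h1 : (H n).Adj (Sum.inr t) (Sum.inl (i₀, ⟨t.val + 1, by omega⟩)) :=
      adj_of_lev (by simp) rfl
    exact h1.reachable.trans (reach_down i₀ (t.val + 1) (by omega))

theorem connected {n : ℕ} (hn : 0 < n) : (H n).Connected := by
  have : Nonempty (W n) := ⟨Sum.inl (⟨0, hn⟩, 0)⟩
  refine ⟨fun x y => ?_⟩
  exact (reach_base ⟨0, hn⟩ x).trans (reach_base ⟨0, hn⟩ y).symm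

/-- a lower bound for the distance to the top vertex of column `j` -/
def phi {n : ℕ} (j : Fin n) : W n → ℕ
  | Sum.inl x => (n - x.2.val) + if x.1 = j then 0 else 1
  | Sum.inr t => (n - (t.val + 1)) + 1

theorem phi_adj {n : ℕ} (j : Fin n) (x y : W n) (h : (H n).Adj x y) : phi j x ≤ phi j y + 1 := by
  rcases (adj_iff _ _).1 h with ⟨_, h2⟩ | h2
  · rcases x with ⟨i, s⟩ | t <;> rcases y with ⟨k, r⟩ | u <;> simp only [lev] at h2 <;>
      simp only [phi] <;> (try split_ifs) <;> omega
  · rcases x with ⟨i, s⟩ | t <;> rcases y with ⟨k, r⟩ | u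
    · obtain ⟨h3, h4⟩ := h2
      simp only at h3 h4
      subst h3
      simp only [phi]
      split_ifs <;> omega
    · exact h2.elim
    · exact h2.elim
    · exact h2.elim

theorem phi_walk {n : ℕ} (j : Fin n) {x y : W n} (p : (H n).Walk x y) :
    phi j x ≤ phi j y + p.length := by
  induction p with
  | nil => simp
  | @cons a b c h q ih =>
    have := phi_adj j a b h
    rw [Walk.length_cons]
    omega

/-- the top vertex of column `j` -/
def top {n : ℕ} (j : Fin n) : W n := Sum.inl (j, Fin.last n)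

/-- the bottom vertex of column `j` -/
def bot {n : ℕ} (j : Fin n) : W n := Sum.inl (j, ⟨0, Nat.succ_pos n⟩)

theorem phi_le_dist {n : ℕ} (hn : 0 < n) (j : Fin n) (x : W n) : phi j x ≤ (H n).dist x (top j) := by
  obtain ⟨p, hp⟩ := (connected hn).exists_walk_length_eq_dist x (top j)
  have h1 := phi_walk j p
  have h2 : phi j (top j) = 0 := by simp [phi, top]
  omega

theorem dist_col {n : ℕ} (hn : 0 < n) (i : Fin n) (d : ℕ) : ∀ s : ℕ, (hs : s < n + 1) → s + d = n →
    (H n).dist (Sum.inl (i, ⟨s, hs⟩)) (top i) ≤ d := by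
  induction d with
  | zero =>
    intro s hs h
    have : (Sum.inl (i, ⟨s, hs⟩) : W n) = top i := by
      unfold top
      congr 2
      ext
      simp
      omega
    rw [this]
    simp
  | succ d ih =>
    intro s hs h
    have h1 : (H n).Adj (Sum.inl (i, ⟨s, hs⟩)) (Sum.inl (i, ⟨s + 1, by omega⟩)) :=
      Or.inr ⟨rfl, Or.inr rfl⟩
    have h2 := ih (s + 1) (by omega) (by omega)
    have h3 := (connected hn).dist_triangle (u := Sum.inl (i, ⟨s, hs⟩))
      (v := Sum.inl (i, ⟨s + 1, by omega⟩)) (w := top i)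
    rw [dist_eq_one_iff_adj.2 h1] at h3
    omega

/-- every vertex is at distance at most `n` from some top vertex -/
theorem exists_top {n : ℕ} (hn : 0 < n) (x : W n) : ∃ j, (H n).dist x (top j) ≤ n := by
  rcases x with ⟨i, s⟩ | t
  · exact ⟨i, (dist_col hn i (n - s.val) s.val s.isLt (by omega)).trans (by omega)⟩
  · refine ⟨⟨0, hn⟩, ?_⟩
    have h1 : (H n).Adj (Sum.inr t) (Sum.inl (⟨0, hn⟩, ⟨t.val + 1, by omega⟩)) :=
      adj_of_lev (by simp) rfl
    have h2 := dist_col hn ⟨0, hn⟩ (n - (t.val + 1)) (t.val + 1) (by omega) (by omega)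
    have h3 := (connected hn).dist_triangle (u := Sum.inr t)
      (v := Sum.inl (⟨0, hn⟩, ⟨t.val + 1, by omega⟩)) (w := top ⟨0, hn⟩)
    rw [dist_eq_one_iff_adj.2 h1] at h3
    omega

/-- the broadcast of cost `n²` -/
def bc (n : ℕ) : W n → ℕ
  | Sum.inl x => if x.2 = Fin.last n then n else 0
  | Sum.inr _ => 0

theorem bc_pos {n : ℕ} (v : W n) (h : 1 ≤ bc n v) : ∃ j, v = top j ∧ bc n v = n := by
  rcases v with ⟨i, s⟩ | t
  · by_cases hs : s = Fin.last n
    · subst hs
      exact ⟨i, rfl, by simp [bc]⟩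
    · simp [bc, hs] at h
  · simp [bc] at h

theorem bc_top {n : ℕ} (j : Fin n) : bc n (top j) = n := by simp [bc, top]

theorem bc_dominating {n : ℕ} (hn : 0 < n) : IsDominatingBroadcast (H n) (bc n) := by
  constructor
  · intro v
    rcases Nat.eq_zero_or_pos (bc n v) with h | h
    · omega
    · obtain ⟨j, rfl, h2⟩ := bc_pos v h
      rw [h2]
      have h3 := phi_le_dist hn j (bot j)
      have h4 : phi j (bot j) = n := by simp [phi, bot]
      rw [h4] at h3
      exact h3.trans (Finset.le_sup (f := fun u => (H n).dist u (top j)) (Finset.mem_univ (bot j)))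
  · intro u
    obtain ⟨j, hj⟩ := exists_top hn u
    exact ⟨top j, by rw [bc_top]; omega, by rw [bc_top]; exact hj⟩

theorem bc_minimal {n : ℕ} (hn : 0 < n) : Minimal (IsDominatingBroadcast (H n)) (bc n) := by
  refine ⟨bc_dominating hn, fun g hg hle v => ?_⟩
  show bc n v ≤ g v
  rcases Nat.eq_zero_or_pos (bc n v) with h | h
  · omega
  · obtain ⟨j, rfl, h2⟩ := bc_pos v h
    obtain ⟨w, hw1, hw2⟩ := hg.dominates (bot j)
    obtain ⟨i, rfl, h3⟩ := bc_pos w (hw1.trans (hle w))
    have h4 := phi_le_dist hn i (bot j)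
    have h5 : g (top i) ≤ n := by
      have := hle (top i)
      rw [h3] at this
      exact this
    by_cases hij : j = i
    · subst hij
      have h6 : phi j (bot j) = n := by simp [phi, bot]
      rw [h6] at h4
      rw [h2]
      omega
    · have h6 : phi i (bot j) = n + 1 := by simp [phi, bot, hij]
      omega

theorem bc_cost (n : ℕ) : ∑ v, bc n v = n * n := by
  rw [Fintype.sum_sum_type, Fintype.sum_prod_type]
  simp [bc]

theorem upperBroadcast_ge {n : ℕ} (hn : 0 < n) : n * n ≤ upperBroadcastNumber (H n) := by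
  apply le_csSup
  · refine ⟨∑ v, ecc (H n) v, ?_⟩
    rintro c ⟨f, hf, rfl⟩
    exact Finset.sum_le_sum fun v _ => hf.prop.le_ecc v
  · exact ⟨bc n, bc_minimal hn, bc_cost n⟩

/-! ### Minimal dominating sets are small -/

theorem level_card_le_one {n : ℕ} (D : Finset (W n)) (hD : Minimal (IsDominatingSet (H n)) D)
    (s : ℕ) (hs : 2 ≤ s) : (D.filter fun x => lev x = s).card ≤ 1 := by
  classical
  rw [Finset.card_le_one]
  intro a ha b hb
  by_contra hab
  rw [Finset.mem_filter] at ha hb
  have h1 : ¬ IsDominatingSet (H n) (D.erase a) := by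
    intro h
    have := hD.le_of_le h (Finset.erase_subset a D) ha.1
    exact Finset.notMem_erase a D this
  unfold IsDominatingSet at h1
  push Not at h1
  obtain ⟨p, hp1, hp2⟩ := h1
  have hbD : b ∈ D.erase a := Finset.mem_erase.2 ⟨Ne.symm hab, hb.1⟩
  have hnb : ∀ d ∈ D, d ≠ a → d ≠ p ∧ ¬ (H n).Adj d p := by
    intro d hd hda
    have hd' : d ∈ D.erase a := Finset.mem_erase.2 ⟨hda, hd⟩
    exact ⟨fun h => hp1 (h ▸ hd'), hp2 d hd'⟩
  have hpa : p = a ∨ (H n).Adj a p := by
    rcases hD.prop p with h | ⟨v, hv, hadj⟩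
    · left
      by_contra hne
      exact (hnb p h hne).1 rfl
    · right
      by_cases hva : v = a
      · exact hva ▸ hadj
      · exact absurd hadj (hnb v hv hva).2
  obtain ⟨hbp, hbadj⟩ := hnb b hb.1 (Ne.symm hab)
  have hlev : lev p ≠ s := by
    intro h
    exact hbadj (adj_of_lev hbp (by rw [hb.2, h]))
  rcases hpa with rfl | hadj
  · exact hlev ha.2
  · rcases (adj_iff _ _).1 hadj with ⟨_, h3⟩ | h3
    · exact hlev (by rw [← h3, ha.2])
    · rcases a with ⟨i, r⟩ | t
      · rcases p with ⟨j, q⟩ | u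
        · have hr : r.val = s := ha.2
          obtain ⟨h4, h5⟩ := h3
          simp only at h4 h5
          have hq : 1 ≤ q.val := by omega
          have hq2 := q.isLt
          rcases hD.prop (Sum.inr ⟨q.val - 1, by omega⟩) with h | ⟨d, hd, hdadj⟩
          · have hne : (Sum.inr ⟨q.val - 1, by omega⟩ : W n) ≠ Sum.inl (i, r) := by simp
            obtain ⟨h6, h7⟩ := hnb _ h hne
            exact h7 (adj_of_lev h6 (by simp only [lev]; omega))
          · have h8 := lev_of_adj_inr d _ hdadj
            simp only at h8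
            have h9 : lev d = q.val := by omega
            have hne : d ≠ Sum.inl (i, r) := by
              rintro rfl
              simp only [lev] at h9
              omega
            obtain ⟨h6, h7⟩ := hnb _ hd hne
            exact h7 (adj_of_lev h6 h9)
        · exact h3.elim
      · rcases p with ⟨j, q⟩ | u
        · exact h3.elim
        · exact h3.elim

theorem level_card_le {n : ℕ} (D : Finset (W n)) (s : ℕ) :
    (D.filter fun x => lev x = s).card ≤ n + 1 := by
  classical
  let g : W n → Option (Fin n) := fun x => match x with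
    | Sum.inl y => some y.1
    | Sum.inr _ => none
  have h : (D.filter fun x => lev x = s).card ≤ (Finset.univ : Finset (Option (Fin n))).card := by
    refine Finset.card_le_card_of_injOn g (fun x _ => Finset.mem_coe.2 (Finset.mem_univ _)) ?_
    intro x hx y hy hxy
    simp only [Finset.coe_filter, Set.mem_ofPred_eq] at hx hy
    rcases x with ⟨i, r⟩ | t <;> rcases y with ⟨j, q⟩ | u
    · simp only [g, Option.some.injEq] at hxy
      have h1 : r.val = q.val := by
        have := hx.2
        have := hy.2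
        simp only [lev] at *
        omega
      rw [hxy, Fin.ext h1]
    · simp [g] at hxy
    · simp [g] at hxy
    · have h1 : t.val = u.val := by
        have := hx.2
        have := hy.2
        simp only [lev] at *
        omega
      rw [Fin.ext h1]
  simpa using h

theorem lev_le {n : ℕ} (x : W n) : lev x < n + 1 := by
  rcases x with ⟨i, s⟩ | t
  · exact s.isLt
  · simp only [lev]
    omega

theorem card_minimal_le {n : ℕ} (D : Finset (W n)) (hD : Minimal (IsDominatingSet (H n)) D) :
    D.card ≤ 3 * (n + 1) := by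
  classical
  have h1 : D.card = ∑ s ∈ Finset.range (n + 1), (D.filter fun x => lev x = s).card :=
    Finset.card_eq_sum_card_fiberwise fun x _ => by
      simp only [Finset.coe_range, Set.mem_Iio]
      exact lev_le x
  have h2 : ∀ s ∈ Finset.range (n + 1), (D.filter fun x => lev x = s).card ≤
      (if s < 2 then n + 1 else 0) + 1 := by
    intro s _
    split_ifs with h
    · have := level_card_le D s
      omega
    · have := level_card_le_one D hD s (by omega)
      omega
  have h3 := Finset.sum_le_sum h2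
  rw [← h1, Finset.sum_add_distrib, ← Finset.sum_filter, Finset.sum_const, Finset.sum_const,
    Finset.card_range] at h3
  have h4 : ((Finset.range (n + 1)).filter fun s => s < 2).card ≤ 2 := by
    have h5 : ((Finset.range (n + 1)).filter fun s => s < 2) ⊆ Finset.range 2 := by
      intro s hs
      rw [Finset.mem_filter] at hs
      exact Finset.mem_range.2 hs.2
    simpa using Finset.card_le_card h5
  simp only [smul_eq_mul, mul_one] at h3
  have h6 := Nat.mul_le_mul_right (n + 1) h4
  omega

theorem exists_minimal {n : ℕ} :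
    ∃ D : Finset (W n), Minimal (IsDominatingSet (H n)) D :=
  exists_minimal_of_wellFoundedLT _ ⟨Finset.univ, fun u => Or.inl (Finset.mem_univ u)⟩

theorem upperDomination_le (n : ℕ) : upperDominationNumber (H n) ≤ 3 * (n + 1) := by
  apply csSup_le'
  rintro c ⟨D, hD, rfl⟩
  exact card_minimal_le D hD

theorem upperDomination_pos {n : ℕ} (hn : 0 < n) : 0 < upperDominationNumber (H n) := by
  obtain ⟨D, hD⟩ := exists_minimal (n := n)
  have h1 : 0 < D.card := by
    rw [Finset.card_pos]
    rcases hD.prop (bot ⟨0, hn⟩) with h | ⟨v, hv, _⟩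
    · exact ⟨_, h⟩
    · exact ⟨v, hv⟩
  refine lt_of_lt_of_le h1 (le_csSup ?_ ⟨D, hD, rfl⟩)
  refine ⟨3 * (n + 1), ?_⟩
  rintro c ⟨D', hD', rfl⟩
  exact card_minimal_le D' hD'

/-- **MP_9b093e_co, Q1.**  The ratio `Γ_b(G) / Γ(G)` is unbounded over finite connected graphs with
at least two vertices: `ρ = ∞`. -/
theorem result (R : ℝ) : ∃ (V : Type) (_ : Fintype V) (G : SimpleGraph V), G.Connected ∧
    2 ≤ Fintype.card V ∧ R < (upperBroadcastNumber G : ℝ) / (upperDominationNumber G : ℝ) := by
  obtain ⟨n, hn⟩ := exists_nat_gt (6 * |R|)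
  have hn0 : 0 < n := by
    have h1 : (0 : ℝ) < n := lt_of_le_of_lt (by positivity) hn
    exact_mod_cast h1
  refine ⟨W n, inferInstance, H n, connected hn0, ?_, ?_⟩
  · simp only [Fintype.card_sum, Fintype.card_prod, Fintype.card_fin]
    nlinarith
  · have h1 : ((n * n : ℕ) : ℝ) ≤ (upperBroadcastNumber (H n) : ℝ) := by
      exact_mod_cast upperBroadcast_ge hn0
    have h2 : (upperDominationNumber (H n) : ℝ) ≤ ((3 * (n + 1) : ℕ) : ℝ) := by
      exact_mod_cast upperDomination_le n
    have h3 : (0 : ℝ) < (upperDominationNumber (H n) : ℝ) := by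
      exact_mod_cast upperDomination_pos hn0
    push_cast at h1 h2
    have h4 : (1 : ℝ) ≤ n := by exact_mod_cast hn0
    rw [lt_div_iff₀ h3]
    have h5 : R ≤ |R| := le_abs_self R
    have h6 : 0 ≤ |R| := abs_nonneg R
    calc R * (upperDominationNumber (H n) : ℝ) ≤ |R| * (upperDominationNumber (H n) : ℝ) :=
          mul_le_mul_of_nonneg_right h5 h3.le
      _ ≤ |R| * (3 * (n + 1)) := mul_le_mul_of_nonneg_left h2 h6
      _ ≤ |R| * (6 * n) := by nlinarith
      _ < n * n := by nlinarith
      _ ≤ _ := h1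

end Pool.Agent.Results.MP_9b093e_co.UnboundedRatio
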